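import Mathlib

/-!
# A Lévy measure: stable of index `7/4` plus an atom at `-1`
-/

set_option autoImplicit false

open MeasureTheory Set Filter Topology
open scoped ENNReal

namespace Pool.Agent.V11331.SF

/-- the index -/
noncomputable def al : ℝ := 7 / 4

/-- the integrand of the exponent of the stable part, `β = 1`, without its constant -/
noncomputable def kk (y : ℝ) : ℝ := (Real.exp (-y) - 1 + y) * y ^ (-1 - al)

lemma e_nonneg (y : ℝ) : 0 ≤ Real.exp (-y) - 1 + y := by
  have := Real.add_one_le_exp (-y); linarith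

lemma e_pos {y : ℝ} (hy : 0 < y) : 0 < Real.exp (-y) - 1 + y := by
  have := Real.add_one_lt_exp (x := -y) (by linarith); linarith

lemma e_le {y : ℝ} (hy : 0 ≤ y) : Real.exp (-y) - 1 + y ≤ y := by
  have : Real.exp (-y) ≤ 1 := Real.exp_le_one_iff.2 (by linarith)
  linarith

lemma e_le_sq {y : ℝ} (hy : 0 ≤ y) (hy1 : y ≤ 1) : Real.exp (-y) - 1 + y ≤ y ^ 2 := by
  have h := Real.abs_exp_sub_one_sub_id_le (x := -y) (by rw [abs_neg, abs_of_nonneg hy]; exact hy1)
  have h2 := le_abs_self (Real.exp (-y) - 1 - -y)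
  nlinarith

lemma meas_kk : Measurable kk := by
  unfold kk
  fun_prop

lemma kk_integrable : IntegrableOn kk (Ioi 0) := by
  rw [← Ioc_union_Ioi_eq_Ioi (zero_le_one (α := ℝ))]
  refine IntegrableOn.union ?_ ?_
  · have h1 : IntegrableOn (fun y : ℝ => y ^ (1 - al)) (Ioc 0 1) := by
      rw [← intervalIntegrable_iff_integrableOn_Ioc_of_le zero_le_one]
      exact intervalIntegral.intervalIntegrable_rpow' (by unfold al; norm_num)
    refine Integrable.mono' h1 meas_kk.aestronglyMeasurable ?_
    refine (ae_restrict_iff' measurableSet_Ioc).2 (Eventually.of_forall fun y hy => ?_)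
    have hy0 : 0 < y := hy.1
    unfold kk
    rw [Real.norm_of_nonneg (mul_nonneg (e_nonneg y) (Real.rpow_nonneg hy0.le _))]
    calc (Real.exp (-y) - 1 + y) * y ^ (-1 - al) ≤ y ^ 2 * y ^ (-1 - al) :=
          mul_le_mul_of_nonneg_right (e_le_sq hy0.le hy.2) (Real.rpow_nonneg hy0.le _)
      _ = y ^ (1 - al) := by
          rw [← Real.rpow_natCast y 2, ← Real.rpow_add hy0]
          congr 1; push_cast; ring
  · have h1 : IntegrableOn (fun y : ℝ => y ^ (-al)) (Ioi 1) :=
      integrableOn_Ioi_rpow_of_lt (by unfold al; norm_num) zero_lt_one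
    refine Integrable.mono' h1 meas_kk.aestronglyMeasurable ?_
    refine (ae_restrict_iff' measurableSet_Ioi).2 (Eventually.of_forall fun y hy => ?_)
    have hy0 : 0 < y := lt_trans zero_lt_one hy
    unfold kk
    rw [Real.norm_of_nonneg (mul_nonneg (e_nonneg y) (Real.rpow_nonneg hy0.le _))]
    calc (Real.exp (-y) - 1 + y) * y ^ (-1 - al) ≤ y * y ^ (-1 - al) :=
          mul_le_mul_of_nonneg_right (e_le hy0.le) (Real.rpow_nonneg hy0.le _)
      _ = y ^ (-al) := by
          nth_rewrite 1 [← Real.rpow_one y]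
          rw [← Real.rpow_add hy0]
          congr 1; ring

noncomputable def KK : ℝ := ∫ y in Ioi (0:ℝ), kk y

lemma KK_pos : 0 < KK := by
  unfold KK
  rw [setIntegral_pos_iff_support_of_nonneg_ae]
  · have : Function.support kk ∩ Ioi 0 = Ioi 0 := by
      ext y
      simp only [mem_inter_iff, Function.mem_support, mem_Ioi, and_iff_right_iff_imp]
      intro hy
      exact (mul_pos (e_pos hy) (Real.rpow_pos_of_pos hy _)).ne'
    rw [this]; simp
  · refine (ae_restrict_iff' measurableSet_Ioi).2 (Eventually.of_forall fun y hy => ?_)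
    exact mul_nonneg (e_nonneg y) (Real.rpow_nonneg (le_of_lt hy) _)
  · exact kk_integrable

/-- scaling -/
lemma scaling {β : ℝ} (hβ : 0 < β) :
    IntegrableOn (fun y => (Real.exp (-(β * y)) - 1 + β * y) * y ^ (-1 - al)) (Ioi 0) ∧
    ∫ y in Ioi (0:ℝ), (Real.exp (-(β * y)) - 1 + β * y) * y ^ (-1 - al) = β ^ al * KK := by
  have e : ∀ y ∈ Ioi (0:ℝ), (Real.exp (-(β * y)) - 1 + β * y) * y ^ (-1 - al) =
      β ^ (1 + al) * kk (β * y) := by
    intro y hy
    unfold kk
    rw [Real.mul_rpow hβ.le (le_of_lt hy)]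
    have : β ^ (1 + al) * β ^ (-1 - al) = 1 := by
      rw [← Real.rpow_add hβ]; ring_nf; exact Real.rpow_zero β
    calc (Real.exp (-(β * y)) - 1 + β * y) * y ^ (-1 - al)
        = (Real.exp (-(β * y)) - 1 + β * y) * ((β ^ (1 + al) * β ^ (-1 - al)) * y ^ (-1 - al)) := by
          rw [this, one_mul]
      _ = _ := by ring
  have hi : IntegrableOn (fun y => kk (β * y)) (Ioi 0) := by
    have := (integrableOn_Ioi_comp_mul_left_iff kk 0 hβ).2 (by simpa using kk_integrable)
    exact this
  constructor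
  · exact (integrableOn_congr_fun e measurableSet_Ioi).2 (hi.const_mul _)
  · rw [setIntegral_congr_fun measurableSet_Ioi e, integral_const_mul,
      integral_comp_mul_left_Ioi kk 0 hβ, mul_zero, smul_eq_mul]
    change β ^ (1 + al) * (β⁻¹ * KK) = _
    rw [Real.rpow_add hβ, Real.rpow_one]
    field_simp

/-- density of the stable part on `(0, ∞)` -/
noncomputable def dens (y : ℝ) : ℝ := KK⁻¹ * y ^ (-1 - al)

lemma dens_nonneg {y : ℝ} (hy : 0 ≤ y) : 0 ≤ dens y :=
  mul_nonneg (inv_nonneg.2 KK_pos.le) (Real.rpow_nonneg hy _)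

lemma meas_dens : Measurable dens := by unfold dens; fun_prop

/-- the stable part, carried by `(0, ∞)` -/
noncomputable def rho : Measure ℝ := (volume.restrict (Ioi 0)).withDensity fun y => ENNReal.ofReal (dens y)

/-- the Lévy measure -/
noncomputable def nu : Measure ℝ := (rho + Measure.dirac 1).map fun y => -y

lemma integral_rho (f : ℝ → ℝ) : ∫ y, f y ∂rho = ∫ y in Ioi (0:ℝ), dens y * f y := by
  unfold rho
  rw [integral_withDensity_eq_integral_toReal_smul meas_dens.ennreal_ofReal
    (Eventually.of_forall fun _ => ENNReal.ofReal_lt_top)]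
  refine setIntegral_congr_fun measurableSet_Ioi fun y hy => ?_
  simp only [smul_eq_mul]
  rw [ENNReal.toReal_ofReal (dens_nonneg (le_of_lt hy))]

lemma integrable_rho {f : ℝ → ℝ} (hf : Measurable f) (h : IntegrableOn (fun y => dens y * f y) (Ioi 0)) :
    Integrable f rho := by
  unfold rho
  rw [integrable_withDensity_iff_integrable_smul' meas_dens.ennreal_ofReal
    (Eventually.of_forall fun _ => ENNReal.ofReal_lt_top)]
  refine (integrableOn_congr_fun (fun y hy => ?_) measurableSet_Ioi).2 h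
  simp only [smul_eq_mul]
  rw [ENNReal.toReal_ofReal (dens_nonneg (le_of_lt hy))]

lemma lintegral_rho (f : ℝ → ℝ≥0∞) (hf : Measurable f) :
    ∫⁻ y, f y ∂rho = ∫⁻ y in Ioi (0:ℝ), ENNReal.ofReal (dens y) * f y := by
  unfold rho
  rw [lintegral_withDensity_eq_lintegral_mul _ meas_dens.ennreal_ofReal hf]
  rfl

lemma rho_Iic : rho (Iic 0) = 0 := by
  unfold rho
  rw [withDensity_apply _ measurableSet_Iic, Measure.restrict_restrict measurableSet_Iic]
  have : Iic (0:ℝ) ∩ Ioi 0 = ∅ := by
    ext y; simp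
  rw [this]; simp

lemma nu_apply {A : Set ℝ} (hA : MeasurableSet A) :
    nu A = rho ((fun y => -y) ⁻¹' A) + (Measure.dirac (1:ℝ)) ((fun y => -y) ⁻¹' A) := by
  unfold nu
  rw [Measure.map_apply measurable_neg hA]
  rfl

lemma nu_Ici : nu (Ici 0) = 0 := by
  rw [nu_apply measurableSet_Ici]
  have : (fun y : ℝ => -y) ⁻¹' (Ici 0) = Iic 0 := by ext y; simp
  rw [this, rho_Iic, Measure.dirac_apply' _ measurableSet_Iic]
  simp

/-- the compensator correction -/
noncomputable def MM : ℝ := ∫ y in Ioi (0:ℝ), dens y * (if 1 ≤ y then y else 0)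

lemma tail_int : IntegrableOn (fun y => dens y * (if 1 ≤ y then y else 0)) (Ioi 0) := by
  have h1 : IntegrableOn (fun y : ℝ => KK⁻¹ * y ^ (-al)) (Ici 1) := by
    rw [integrableOn_Ici_iff_integrableOn_Ioi]
    exact (integrableOn_Ioi_rpow_of_lt (by unfold al; norm_num) zero_lt_one).const_mul _
  have h2 : Integrable (indicator (Ici 1) fun y : ℝ => KK⁻¹ * y ^ (-al)) := h1.integrable_indicator measurableSet_Ici
  refine h2.integrableOn.congr_fun (fun y hy => ?_) measurableSet_Ioi
  by_cases h : 1 ≤ y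
  · rw [indicator_of_mem (show y ∈ Ici 1 from h), if_pos h]
    unfold dens
    have hy0 : 0 < y := hy
    rw [mul_assoc]; congr 1
    nth_rewrite 3 [← Real.rpow_one y]
    rw [← Real.rpow_add hy0]
    congr 1; ring
  · rw [indicator_of_notMem (show y ∉ Ici 1 from h), if_neg h, mul_zero]

lemma psi {β : ℝ} (hβ : 0 < β) :
    MM * β + ∫ x, (Real.exp (β * x) - 1 - (if -1 < x then β * x else 0)) ∂nu =
      β ^ al - (1 - Real.exp (-β)) := by
  have hm : Measurable fun x : ℝ => Real.exp (β * x) - 1 - (if -1 < x then β * x else 0) := by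
    refine Measurable.sub (by fun_prop) (Measurable.ite measurableSet_Ioi (by fun_prop) measurable_const)
  unfold nu
  rw [integral_map measurable_neg.aemeasurable hm.aestronglyMeasurable]
  have e1 : ∀ y : ℝ, Real.exp (β * -y) - 1 - (if -1 < -y then β * -y else 0) =
      (Real.exp (-(β * y)) - 1 + β * y) - β * (if 1 ≤ y then y else 0) := by
    intro y
    have : β * -y = -(β * y) := by ring
    rw [this]
    by_cases h : 1 ≤ y
    · rw [if_neg (by linarith), if_pos h]; ring
    · rw [if_pos (by linarith), if_neg h]; ring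
  simp_rw [e1]
  obtain ⟨s1, s2⟩ := scaling hβ
  have i1 : IntegrableOn (fun y => dens y * (Real.exp (-(β * y)) - 1 + β * y)) (Ioi 0) := by
    have h0 : IntegrableOn (fun y => KK⁻¹ * ((Real.exp (-(β * y)) - 1 + β * y) * y ^ (-1 - al))) (Ioi 0) :=
      s1.const_mul KK⁻¹
    refine h0.congr_fun (fun y _ => ?_) measurableSet_Ioi
    simp only [dens]; ring
  have i2 : IntegrableOn (fun y => dens y * (β * (if 1 ≤ y then y else 0))) (Ioi 0) := by
    have h0 : IntegrableOn (fun y => β * (dens y * (if 1 ≤ y then y else 0))) (Ioi 0) :=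
      tail_int.const_mul β
    refine h0.congr_fun (fun y _ => ?_) measurableSet_Ioi
    simp only; ring
  have m1 : Measurable fun y : ℝ => Real.exp (-(β * y)) - 1 + β * y := by fun_prop
  have m2 : Measurable fun y : ℝ => β * (if 1 ≤ y then y else 0) :=
    (Measurable.ite measurableSet_Ici measurable_id measurable_const).const_mul β
  have j1 := integrable_rho m1 i1
  have j2 := integrable_rho m2 i2
  have k1 : ∫ y, (Real.exp (-(β * y)) - 1 + β * y) - β * (if 1 ≤ y then y else 0)
      ∂(rho + Measure.dirac 1) = ∫ y, (Real.exp (-(β * y)) - 1 + β * y) - β * (if 1 ≤ y then y else 0) ∂rho +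
      ∫ y, (Real.exp (-(β * y)) - 1 + β * y) - β * (if 1 ≤ y then y else 0) ∂(Measure.dirac (1:ℝ)) :=
    integral_add_measure (j1.sub j2) (integrable_dirac (by simp))
  rw [k1, integral_dirac, integral_sub j1 j2, integral_rho, integral_rho]
  have v1 : ∫ y in Ioi (0:ℝ), dens y * (Real.exp (-(β * y)) - 1 + β * y) = β ^ al := by
    have : ∫ y in Ioi (0:ℝ), dens y * (Real.exp (-(β * y)) - 1 + β * y) =
        ∫ y in Ioi (0:ℝ), KK⁻¹ * ((Real.exp (-(β * y)) - 1 + β * y) * y ^ (-1 - al)) := by
      refine setIntegral_congr_fun measurableSet_Ioi fun y _ => ?_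
      simp only [dens]; ring
    rw [this, integral_const_mul, s2]
    have := KK_pos.ne'
    field_simp
  have v2 : ∫ y in Ioi (0:ℝ), dens y * (β * (if 1 ≤ y then y else 0)) = β * MM := by
    unfold MM
    rw [← integral_const_mul]
    refine setIntegral_congr_fun measurableSet_Ioi fun y _ => ?_
    ring
  rw [v1, v2]
  simp only [le_refl, if_true, mul_one]
  ring

lemma nu_sq : ∫⁻ x, ENNReal.ofReal (min 1 (x ^ 2)) ∂nu < ⊤ := by
  have hm : Measurable fun x : ℝ => ENNReal.ofReal (min 1 (x ^ 2)) := by fun_prop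
  unfold nu
  rw [lintegral_map hm measurable_neg, lintegral_add_measure]
  refine ENNReal.add_lt_top.2 ⟨?_, ?_⟩
  · have hm2 : Measurable fun y : ℝ => ENNReal.ofReal (min 1 ((-y) ^ 2)) := by fun_prop
    rw [lintegral_rho _ hm2]
    have hI : IntegrableOn (fun y => dens y * min 1 (y ^ 2)) (Ioi 0) := by
      have md : Measurable fun y => dens y * min 1 (y ^ 2) := meas_dens.mul (by fun_prop)
      rw [← Ioc_union_Ioi_eq_Ioi (zero_le_one (α := ℝ))]
      refine IntegrableOn.union ?_ ?_
      · have h1 : IntegrableOn (fun y : ℝ => KK⁻¹ * y ^ (1 - al)) (Ioc 0 1) := by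
          rw [← intervalIntegrable_iff_integrableOn_Ioc_of_le zero_le_one]
          exact (intervalIntegral.intervalIntegrable_rpow' (by unfold al; norm_num)).const_mul _
        refine Integrable.mono' h1 md.aestronglyMeasurable ?_
        refine (ae_restrict_iff' measurableSet_Ioc).2 (Eventually.of_forall fun y hy => ?_)
        have hy0 : 0 < y := hy.1
        rw [Real.norm_of_nonneg (mul_nonneg (dens_nonneg hy0.le) (le_min zero_le_one (sq_nonneg y)))]
        calc dens y * min 1 (y ^ 2) ≤ dens y * y ^ 2 :=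
              mul_le_mul_of_nonneg_left (min_le_right _ _) (dens_nonneg hy0.le)
          _ = KK⁻¹ * y ^ (1 - al) := by
              unfold dens
              rw [← Real.rpow_natCast y 2, mul_assoc, ← Real.rpow_add hy0]
              congr 2; push_cast; ring
      · have h1 : IntegrableOn (fun y : ℝ => KK⁻¹ * y ^ (-1 - al)) (Ioi 1) :=
          (integrableOn_Ioi_rpow_of_lt (by unfold al; norm_num) zero_lt_one).const_mul _
        refine Integrable.mono' h1 md.aestronglyMeasurable ?_
        refine (ae_restrict_iff' measurableSet_Ioi).2 (Eventually.of_forall fun y hy => ?_)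
        have hy0 : 0 < y := lt_trans zero_lt_one hy
        rw [Real.norm_of_nonneg (mul_nonneg (dens_nonneg hy0.le) (le_min zero_le_one (sq_nonneg y)))]
        calc dens y * min 1 (y ^ 2) ≤ dens y * 1 :=
              mul_le_mul_of_nonneg_left (min_le_left _ _) (dens_nonneg hy0.le)
          _ = KK⁻¹ * y ^ (-1 - al) := by rw [mul_one]; rfl
    have h2 := hI.lintegral_lt_top
    refine lt_of_le_of_lt (le_of_eq ?_) h2
    refine setLIntegral_congr_fun measurableSet_Ioi fun y hy => ?_
    rw [neg_sq, ← ENNReal.ofReal_mul (dens_nonneg (le_of_lt hy))]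
  · rw [lintegral_dirac' _ (by fun_prop)]
    exact ENNReal.ofReal_lt_top

lemma nu_abs : ∫⁻ x in Ioo (-1 : ℝ) 0, ENNReal.ofReal |x| ∂nu = ⊤ := by
  have hm : Measurable fun x : ℝ => ENNReal.ofReal |x| := by fun_prop
  rw [← lintegral_indicator measurableSet_Ioo]
  unfold nu
  rw [lintegral_map (hm.indicator measurableSet_Ioo) measurable_neg, lintegral_add_measure]
  have hm2 : Measurable fun y : ℝ => (Ioo (-1:ℝ) 0).indicator (fun x => ENNReal.ofReal |x|) (-y) :=
    (hm.indicator measurableSet_Ioo).comp measurable_neg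
  rw [lintegral_rho _ hm2]
  rw [ENNReal.add_eq_top]
  left
  by_contra hne
  have h1 : ∫⁻ y in Ioo (0:ℝ) 1, ENNReal.ofReal (KK⁻¹ * y ^ (-al)) ≠ ⊤ := by
    refine ne_top_of_le_ne_top hne ?_
    refine le_trans (le_of_eq ?_) (lintegral_mono_set (s := Ioo (0:ℝ) 1) Ioo_subset_Ioi_self)
    refine setLIntegral_congr_fun measurableSet_Ioo fun y hy => ?_
    have hy' : -y ∈ Ioo (-1:ℝ) 0 := ⟨by linarith [hy.2], by linarith [hy.1]⟩
    rw [indicator_of_mem hy', abs_neg, abs_of_pos hy.1, ← ENNReal.ofReal_mul (dens_nonneg hy.1.le)]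
    congr 1
    unfold dens
    rw [mul_assoc]; congr 1
    have hy0 : 0 < y := hy.1
    nth_rewrite 3 [← Real.rpow_one y]
    rw [← Real.rpow_add hy0]
    congr 1; ring
  have hmp : Measurable fun y : ℝ => KK⁻¹ * y ^ (-al) := by fun_prop
  have h2 : IntegrableOn (fun y : ℝ => KK⁻¹ * y ^ (-al)) (Ioo 0 1) := by
    refine (lintegral_ofReal_ne_top_iff_integrable hmp.aestronglyMeasurable ?_).1 h1
    refine (ae_restrict_iff' measurableSet_Ioo).2 (Eventually.of_forall fun y hy => ?_)
    exact mul_nonneg (inv_nonneg.2 KK_pos.le) (Real.rpow_nonneg hy.1.le _)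
  have h3 : IntegrableOn (fun y : ℝ => y ^ (-al)) (Ioo 0 1) := by
    have h0 : IntegrableOn (fun y : ℝ => KK * (KK⁻¹ * y ^ (-al))) (Ioo 0 1) := h2.const_mul KK
    refine h0.congr_fun (fun y _ => ?_) measurableSet_Ioo
    simp only
    rw [← mul_assoc, mul_inv_cancel₀ KK_pos.ne', one_mul]
  rw [intervalIntegral.integrableOn_Ioo_rpow_iff zero_lt_one] at h3
  unfold al at h3
  norm_num at h3

lemma nu_Iio_lt_top {y : ℝ} (hy : 0 < y) : nu (Iio (-y)) < ⊤ := by
  have h := nu_sq
  by_contra hne
  have htop : nu (Iio (-y)) = ⊤ := by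
    by_contra h2; exact hne (lt_top_iff_ne_top.2 h2)
  have h3 : ENNReal.ofReal (min 1 (y ^ 2)) * nu (Iio (-y)) ≤
      ∫⁻ x, ENNReal.ofReal (min 1 (x ^ 2)) ∂nu := by
    rw [← setLIntegral_const]
    refine le_trans ?_ (setLIntegral_le_lintegral (Iio (-y)) _)
    refine setLIntegral_mono' measurableSet_Iio fun x hx => ?_
    refine ENNReal.ofReal_le_ofReal (min_le_min le_rfl ?_)
    have : x < -y := hx
    nlinarith
  rw [htop, ENNReal.mul_top (by
    rw [Ne, ENNReal.ofReal_eq_zero, not_le]; exact lt_min one_pos (by positivity))] at h3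
  exact absurd h (not_lt.2 h3)

lemma tail_not_cont : ¬ ContinuousOn (fun y => (nu (Iio (-y))).toReal) (Ioi 0) := by
  intro h
  have h1 : ContinuousAt (fun y => (nu (Iio (-y))).toReal) 1 := h.continuousAt (Ioi_mem_nhds one_pos)
  have h2 : Tendsto (fun y => (nu (Iio (-y))).toReal) (𝓝[<] 1) (𝓝 (nu (Iio (-1))).toReal) :=
    h1.tendsto.mono_left nhdsWithin_le_nhds
  have h3 : ∀ᶠ y in 𝓝[<] (1:ℝ), (nu (Iio (-1))).toReal + 1 ≤ (nu (Iio (-y))).toReal := by
    have : Ioo (0:ℝ) 1 ∈ 𝓝[<] (1:ℝ) := Ioo_mem_nhdsLT one_pos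
    filter_upwards [this] with y hy
    have h4 : nu (Iio (-1)) + nu {(-1:ℝ)} ≤ nu (Iio (-y)) := by
      rw [← measure_union (by simp) (measurableSet_singleton _)]
      refine measure_mono ?_
      rintro x (hx | hx)
      · have : x < -1 := hx
        exact show x < -y by linarith [hy.2]
      · have : x = -1 := hx
        exact show x < -y by rw [this]; linarith [hy.2]
    have h5 : 1 ≤ nu {(-1:ℝ)} := by
      rw [nu_apply (measurableSet_singleton _)]
      refine le_trans ?_ le_add_self
      rw [Measure.dirac_apply' _ (measurable_neg (measurableSet_singleton _))]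
      rw [indicator_of_mem (by simp)]
      simp
    have h6 : nu (Iio (-1)) + 1 ≤ nu (Iio (-y)) := le_trans (by gcongr) h4
    have h7 := (ENNReal.toReal_le_toReal (by
      exact ENNReal.add_ne_top.2 ⟨(nu_Iio_lt_top one_pos).ne, ENNReal.one_ne_top⟩)
      (nu_Iio_lt_top hy.1).ne).2 h6
    rwa [ENNReal.toReal_add (nu_Iio_lt_top one_pos).ne ENNReal.one_ne_top, ENNReal.toReal_one] at h7
  have h8 := ge_of_tendsto h2 h3
  linarith

end Pool.Agent.V11331.SF
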