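import Mathlib
import Pool.Agent.V11331.SF.Levy

/-!
# The scale function as a series
-/

set_option autoImplicit false

open MeasureTheory Set Filter Topology
open scoped ENNReal

namespace Pool.Agent.V11331.SF

/-! ### the kernels -/

/-- Riemann–Liouville kernel -/
noncomputable def g (s x : ℝ) : ℝ := (max x 0) ^ (s - 1) / Real.Gamma s

lemma g_nonneg {s : ℝ} (hs : 0 < s) (x : ℝ) : 0 ≤ g s x :=
  div_nonneg (Real.rpow_nonneg (le_max_right _ _) _) (Real.Gamma_pos_of_pos hs).le

lemma g_zero {s x : ℝ} (hs : 1 < s) (hx : x ≤ 0) : g s x = 0 := by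
  unfold g
  rw [max_eq_right hx, Real.zero_rpow (by linarith), zero_div]

lemma g_pos_eq {s x : ℝ} (hx : 0 ≤ x) : g s x = x ^ (s - 1) / Real.Gamma s := by
  unfold g
  rw [max_eq_left hx]

lemma g_mono {s : ℝ} (hs : 1 ≤ s) : Monotone (g s) := by
  intro x y hxy
  unfold g
  exact div_le_div_of_nonneg_right (Real.rpow_le_rpow (le_max_right _ _) (max_le_max_right 0 hxy)
    (by linarith)) (Real.Gamma_pos_of_pos (by linarith)).le

lemma g_cont {s : ℝ} (hs : 1 < s) : Continuous (g s) := by
  unfold g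
  refine Continuous.div_const ?_ _
  exact (continuous_id.max continuous_const).rpow_const fun x => Or.inr (by linarith)

lemma g_meas (s : ℝ) : Measurable (g s) := by
  unfold g; fun_prop

lemma g_deriv {s : ℝ} (hs : 2 < s) (x : ℝ) : HasDerivAt (g s) (g (s - 1) x) x := by
  have hG : Real.Gamma s = (s - 1) * Real.Gamma (s - 1) := by
    have := Real.Gamma_add_one (s := s - 1) (by linarith)
    rwa [sub_add_cancel] at this
  have hG1 : Real.Gamma (s - 1) ≠ 0 := (Real.Gamma_pos_of_pos (by linarith)).ne'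
  have hpow : ∀ x : ℝ, HasDerivAt (fun x : ℝ => x ^ (s - 1) / Real.Gamma s)
      (x ^ (s - 1 - 1) / Real.Gamma (s - 1)) x := by
    intro x
    have h1 := (Real.hasDerivAt_rpow_const (x := x) (p := s - 1) (Or.inr (by linarith))).div_const
      (Real.Gamma s)
    convert! h1 using 1
    rw [hG]
    have : s - 1 ≠ 0 := by linarith
    field_simp
  rcases lt_trichotomy x 0 with hx | rfl | hx
  · have h1 : g s =ᶠ[𝓝 x] fun _ => (0:ℝ) := by
      filter_upwards [Iio_mem_nhds hx] with y hy
      exact g_zero (by linarith) (le_of_lt hy)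
    rw [g_zero (by linarith) hx.le]
    exact (hasDerivAt_const x (0:ℝ)).congr_of_eventuallyEq h1
  · rw [g_zero (by linarith) le_rfl]
    have hL : HasDerivWithinAt (g s) 0 (Iic 0) 0 := by
      refine (hasDerivWithinAt_const (0:ℝ) (Iic 0) (0:ℝ)).congr (fun y hy => ?_) ?_
      · exact g_zero (by linarith) hy
      · exact g_zero (by linarith) le_rfl
    have hR : HasDerivWithinAt (g s) 0 (Ici 0) 0 := by
      have h0 := (hpow 0).hasDerivWithinAt (s := Ici 0)
      have : (0:ℝ) ^ (s - 1 - 1) / Real.Gamma (s - 1) = 0 := by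
        rw [Real.zero_rpow (by linarith), zero_div]
      rw [this] at h0
      refine h0.congr (fun y hy => ?_) ?_
      · exact g_pos_eq hy
      · exact g_pos_eq le_rfl
    have := hL.union hR
    rwa [Iic_union_Ici, hasDerivWithinAt_univ] at this
  · have h1 : g s =ᶠ[𝓝 x] fun x => x ^ (s - 1) / Real.Gamma s := by
      filter_upwards [Ioi_mem_nhds hx] with y hy
      exact g_pos_eq (le_of_lt hy)
    rw [g_pos_eq hx.le]
    exact (hpow x).congr_of_eventuallyEq h1

lemma g_laplace {s β : ℝ} (hs : 1 < s) (hβ : 0 < β) :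
    Integrable (fun x => Real.exp (-β * x) * g s x) ∧
    ∫ x, Real.exp (-β * x) * g s x = β ^ (-s) := by
  have e1 : ∀ x ∈ Ioi (0:ℝ), Real.exp (-β * x) * g s x =
      (Real.Gamma s)⁻¹ * (x ^ (s - 1) * Real.exp (-(β * x))) := by
    intro x hx
    rw [g_pos_eq (le_of_lt hx), neg_mul]
    field_simp
  have hGp := Real.Gamma_pos_of_pos (show 0 < s by linarith)
  have hv := Real.integral_rpow_mul_exp_neg_mul_Ioi (a := s) (r := β) (by linarith) hβ
  have hi0 : IntegrableOn (fun x : ℝ => x ^ (s - 1) * Real.exp (-(β * x))) (Ioi 0) := by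
    by_contra hne
    have := integral_undef hne
    rw [hv] at this
    have hpos : 0 < (1 / β) ^ s * Real.Gamma s := by positivity
    linarith
  have hi1 : IntegrableOn (fun x => Real.exp (-β * x) * g s x) (Ioi 0) := by
    have h0 : IntegrableOn (fun x : ℝ => (Real.Gamma s)⁻¹ * (x ^ (s - 1) * Real.exp (-(β * x)))) (Ioi 0) :=
      hi0.const_mul _
    exact h0.congr_fun (fun x hx => (e1 x hx).symm) measurableSet_Ioi
  have hsupp : Function.support (fun x => Real.exp (-β * x) * g s x) ⊆ Ioi 0 := by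
    intro x hx
    by_contra h
    exact hx (by simp [g_zero hs (not_lt.1 h)])
  constructor
  · exact (integrableOn_iff_integrable_of_support_subset hsupp).1 hi1
  · rw [← setIntegral_eq_integral_of_forall_compl_eq_zero (s := Ioi (0:ℝ))]
    · rw [setIntegral_congr_fun measurableSet_Ioi e1, integral_const_mul, hv, one_div,
        Real.inv_rpow hβ.le, Real.rpow_neg hβ.le]
      field_simp
    · intro x hx
      by_contra h
      exact hx (hsupp h)

lemma g_bound {s β : ℝ} (hs : 1 < s) (hβ : 0 < β) (x : ℝ) :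
    g s x ≤ Real.exp (β * (x + 1)) * β ^ (-s) := by
  obtain ⟨hi, hv⟩ := g_laplace hs hβ
  have h1 : Real.exp (-(β * (x + 1))) * g s x ≤ ∫ y, Real.exp (-β * y) * g s y := by
    have h2 : ∫ y in Ioc x (x + 1), Real.exp (-(β * (x + 1))) * g s x ≤
        ∫ y in Ioc x (x + 1), Real.exp (-β * y) * g s y := by
      refine setIntegral_mono_on continuous_const.integrableOn_Ioc hi.integrableOn measurableSet_Ioc
        fun y hy => ?_
      refine mul_le_mul (Real.exp_le_exp.2 ?_) (g_mono hs.le hy.1.le) (g_nonneg (by linarith) _)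
        (Real.exp_pos _).le
      have := hy.2
      nlinarith
    have h3 : ∫ y in Ioc x (x + 1), Real.exp (-(β * (x + 1))) * g s x =
        Real.exp (-(β * (x + 1))) * g s x := by
      rw [setIntegral_const]; simp
    rw [h3] at h2
    refine h2.trans (setIntegral_le_integral hi (Eventually.of_forall fun y => ?_))
    exact mul_nonneg (Real.exp_pos _).le (g_nonneg (by linarith) _)
  rw [hv] at h1
  have h4 : g s x = Real.exp (β * (x + 1)) * (Real.exp (-(β * (x + 1))) * g s x) := by
    rw [← mul_assoc, ← Real.exp_add]; simp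
  rw [h4]
  exact mul_le_mul_of_nonneg_left h1 (Real.exp_pos _).le

/-! ### the difference operator -/

/-- `D f x = f x - f (x - 1)` -/
def D (f : ℝ → ℝ) (x : ℝ) : ℝ := f x - f (x - 1)

lemma D_bound {f : ℝ → ℝ} (h0 : ∀ x, 0 ≤ f x) (hm : Monotone f) (n : ℕ) :
    ∀ x, |D^[n] f x| ≤ 2 ^ n * f x := by
  induction n with
  | zero => intro x; simp [abs_of_nonneg (h0 x)]
  | succ n ih =>
    intro x
    rw [Function.iterate_succ_apply']
    unfold D
    have h1 := ih x
    have h2 := ih (x - 1)
    have h3 : f (x - 1) ≤ f x := hm (by linarith)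
    have h4 : (2:ℝ) ^ n * f (x - 1) ≤ 2 ^ n * f x := mul_le_mul_of_nonneg_left h3 (by positivity)
    calc |D^[n] f x - D^[n] f (x - 1)| ≤ |D^[n] f x| + |D^[n] f (x - 1)| := abs_sub _ _
      _ ≤ 2 ^ n * f x + 2 ^ n * f x := by linarith
      _ = 2 ^ (n + 1) * f x := by ring

lemma D_meas {f : ℝ → ℝ} (hf : Measurable f) (n : ℕ) : Measurable (D^[n] f) := by
  induction n with
  | zero => exact hf
  | succ n ih =>
    rw [Function.iterate_succ_apply']
    unfold D
    exact ih.sub (ih.comp (measurable_id.sub_const 1))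

lemma D_cont {f : ℝ → ℝ} (hf : Continuous f) (n : ℕ) : Continuous (D^[n] f) := by
  induction n with
  | zero => exact hf
  | succ n ih =>
    rw [Function.iterate_succ_apply']
    unfold D
    exact ih.sub (ih.comp (continuous_id.sub continuous_const))

lemma D_deriv {f f' : ℝ → ℝ} (hf : ∀ x, HasDerivAt f (f' x) x) (n : ℕ) :
    ∀ x, HasDerivAt (D^[n] f) (D^[n] f' x) x := by
  induction n with
  | zero => exact hf
  | succ n ih =>
    intro x
    rw [Function.iterate_succ_apply', Function.iterate_succ_apply']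
    unfold D
    have h1 := ih x
    have h2 : HasDerivAt (fun y => D^[n] f (y - 1)) (D^[n] f' (x - 1)) x := by
      have := (ih (x - 1)).comp_sub_const x 1
      exact this
    exact h1.sub h2

lemma D_laplace {f : ℝ → ℝ} {β L : ℝ} (hi : Integrable (fun x => Real.exp (-β * x) * f x))
    (hv : ∫ x, Real.exp (-β * x) * f x = L) (n : ℕ) :
    Integrable (fun x => Real.exp (-β * x) * D^[n] f x) ∧
    ∫ x, Real.exp (-β * x) * D^[n] f x = (1 - Real.exp (-β)) ^ n * L := by
  induction n with
  | zero => exact ⟨hi, by simpa using hv⟩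
  | succ n ih =>
    obtain ⟨h1, h2⟩ := ih
    have e : ∀ x, Real.exp (-β * x) * D^[n + 1] f x = Real.exp (-β * x) * D^[n] f x -
        Real.exp (-β) * (Real.exp (-β * (x - 1)) * D^[n] f (x - 1)) := by
      intro x
      rw [Function.iterate_succ_apply']
      unfold D
      rw [mul_sub, ← mul_assoc (Real.exp (-β)), ← Real.exp_add]
      congr 3; ring
    have h3 : Integrable (fun x => Real.exp (-β) * (Real.exp (-β * (x - 1)) * D^[n] f (x - 1))) :=
      (h1.comp_sub_right 1).const_mul _
    constructor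
    · simp_rw [e]; exact h1.sub h3
    · simp_rw [e]
      rw [integral_sub h1 h3, integral_const_mul, h2]
      have h4 : ∫ x, Real.exp (-β * (x - 1)) * D^[n] f (x - 1) = ∫ x, Real.exp (-β * x) * D^[n] f x :=
        integral_sub_right_eq_self (fun x => Real.exp (-β * x) * D^[n] f x) 1
      rw [h4, h2]; ring

lemma D_zero {f : ℝ → ℝ} (hf : ∀ x ≤ 0, f x = 0) (n : ℕ) : ∀ x ≤ 0, D^[n] f x = 0 := by
  induction n with
  | zero => exact hf
  | succ n ih =>
    intro x hx
    rw [Function.iterate_succ_apply']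
    change D^[n] f x - D^[n] f (x - 1) = 0
    rw [ih x hx, ih (x - 1) (by linarith), sub_zero]

/-! ### the scale function -/

/-- exponent of the `n`-th term -/
noncomputable def ex (n : ℕ) : ℝ := al * (n + 1)

lemma ex_ge (n : ℕ) : al ≤ ex n := by
  unfold ex al
  have : (0:ℝ) ≤ n := Nat.cast_nonneg n
  linarith

lemma ex_one (n : ℕ) : 7 / 2 ≤ ex (n + 1) := by
  unfold ex al
  have : (0:ℝ) ≤ n := Nat.cast_nonneg n
  push_cast; linarith

/-- the `n`-th term -/
noncomputable def G (n : ℕ) (x : ℝ) : ℝ := D^[n] (g (ex n)) x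

noncomputable def W (x : ℝ) : ℝ := ∑' n, G n x

/-- the geometric bounds: `2 ^ n * β ^ (-(ex n - j))` is summable -/
lemma summ (j : ℝ) {β : ℝ} (hβ : 2 < β) : Summable fun n : ℕ => 2 ^ n * β ^ (-(ex n - j)) := by
  have hb : 0 < β := by linarith
  have e : ∀ n : ℕ, 2 ^ n * β ^ (-(ex n - j)) = β ^ (j - al) * (2 * β ^ (-al)) ^ n := by
    intro n
    rw [mul_pow, ← Real.rpow_natCast (β ^ (-al)) n, ← Real.rpow_mul hb.le]
    have : -(ex n - j) = (j - al) + (-al * n) := by unfold ex; ring
    rw [this, Real.rpow_add hb]; ring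
  simp_rw [e]
  refine Summable.mul_left _ (summable_geometric_of_lt_one (by positivity) ?_)
  rw [Real.rpow_neg hb.le]
  have h1 : 2 < β ^ al := by
    calc (2:ℝ) < β := hβ
      _ = β ^ (1:ℝ) := (Real.rpow_one β).symm
      _ ≤ β ^ al := Real.rpow_le_rpow_of_exponent_le (by linarith) (by unfold al; norm_num)
  have h2 : 0 < β ^ al := by linarith
  rw [← div_eq_mul_inv, div_lt_one h2]; exact h1

lemma DG_bound (n : ℕ) (j : ℝ) (hj : 1 < ex n - j) {β : ℝ} (hβ : 2 < β) {x R : ℝ} (hx : x ≤ R) :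
    |D^[n] (g (ex n - j)) x| ≤ Real.exp (β * (R + 1)) * (2 ^ n * β ^ (-(ex n - j))) := by
  have h1 := D_bound (f := g (ex n - j)) (fun x => g_nonneg (by linarith) x) (g_mono hj.le) n x
  have h2 := g_bound hj (show 0 < β by linarith) x
  have h3 : Real.exp (β * (x + 1)) ≤ Real.exp (β * (R + 1)) := Real.exp_le_exp.2 (by nlinarith)
  calc |D^[n] (g (ex n - j)) x| ≤ 2 ^ n * g (ex n - j) x := h1
    _ ≤ 2 ^ n * (Real.exp (β * (x + 1)) * β ^ (-(ex n - j))) := by gcongr
    _ ≤ 2 ^ n * (Real.exp (β * (R + 1)) * β ^ (-(ex n - j))) := by gcongr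
    _ = _ := by ring

lemma G_summable (x : ℝ) : Summable fun n => G n x := by
  refine Summable.of_norm_bounded ((summ 0 (β := 3) (by norm_num)).mul_left (Real.exp (3 * (x + 1)))) fun n => ?_
  have := DG_bound n 0 (by have := ex_ge n; unfold al at this; linarith) (β := 3) (by norm_num) (le_refl x)
  rw [sub_zero] at this
  rw [sub_zero]
  exact this

lemma G_meas (n : ℕ) : Measurable (G n) := D_meas (g_meas _) n

lemma W_meas : Measurable W := by
  unfold W
  exact Measurable.tsum fun n => G_meas n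

lemma G_laplace (n : ℕ) {β : ℝ} (hβ : 0 < β) :
    Integrable (fun x => Real.exp (-β * x) * G n x) ∧
    ∫ x, Real.exp (-β * x) * G n x = (1 - Real.exp (-β)) ^ n * β ^ (-ex n) := by
  have h := g_laplace (s := ex n) (β := β) (by have := ex_ge n; unfold al at this; linarith) hβ
  exact D_laplace h.1 h.2 n

lemma G_norm (n : ℕ) {β : ℝ} (hβ : 0 < β) :
    ∫ x, ‖Real.exp (-β * x) * G n x‖ ≤ 2 ^ n * β ^ (-ex n) := by
  have hs : 1 < ex n := by have := ex_ge n; unfold al at this; linarith
  obtain ⟨hi, hv⟩ := g_laplace (s := ex n) (β := β) hs hβ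
  rw [← hv, ← integral_const_mul]
  refine integral_mono (G_laplace n hβ).1.norm (hi.const_mul _) fun x => ?_
  simp only [norm_mul, Real.norm_eq_abs, Real.abs_exp]
  have h1 := D_bound (f := g (ex n)) (fun x => g_nonneg (by linarith) x) (g_mono hs.le) n x
  calc Real.exp (-β * x) * |G n x| ≤ Real.exp (-β * x) * (2 ^ n * g (ex n) x) :=
        mul_le_mul_of_nonneg_left h1 (Real.exp_pos _).le
    _ = 2 ^ n * (Real.exp (-β * x) * g (ex n) x) := by ring

lemma sum_norm {β : ℝ} (hβ : 2 < β) : Summable fun n => ∫ x, ‖Real.exp (-β * x) * G n x‖ := by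
  refine Summable.of_nonneg_of_le (fun n => integral_nonneg fun x => norm_nonneg _)
    (fun n => G_norm n (by linarith)) ?_
  have := summ 0 hβ
  simpa using this

lemma W_zero {x : ℝ} (hx : x ≤ 0) : W x = 0 := by
  unfold W
  have : ∀ n, G n x = 0 := fun n =>
    D_zero (fun x hx => g_zero (by have := ex_ge n; unfold al at this; linarith) hx) n x hx
  simp [this]

lemma W_laplace {β : ℝ} (hβ : 2 < β) :
    Integrable (fun x => Real.exp (-β * x) * W x) ∧
    ∫ x, Real.exp (-β * x) * W x = 1 / (β ^ al - (1 - Real.exp (-β))) := by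
  have hb : 0 < β := by linarith
  have hF := fun n => (G_laplace n hb).1
  have hsum := sum_norm hβ
  have hts : ∀ x, ∑' n, Real.exp (-β * x) * G n x = Real.exp (-β * x) * W x := fun x => tsum_mul_left
  have h1 := hasSum_integral_of_summable_integral_norm hF hsum
  simp_rw [hts] at h1
  constructor
  · refine ⟨((measurable_const.mul measurable_id).exp.mul W_meas).aestronglyMeasurable, ?_⟩
    have h2 : ∫⁻ x, ‖Real.exp (-β * x) * W x‖ₑ ≤ ∑' n, ∫⁻ x, ‖Real.exp (-β * x) * G n x‖ₑ := by
      rw [← lintegral_tsum fun n => (hF n).1.enorm]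
      refine lintegral_mono fun x => ?_
      rw [← hts x]
      exact enorm_tsum_le_tsum_enorm
    refine lt_of_le_of_lt h2 ?_
    have h3 : ∀ n, ∫⁻ x, ‖Real.exp (-β * x) * G n x‖ₑ =
        ENNReal.ofReal (∫ x, ‖Real.exp (-β * x) * G n x‖) := fun n =>
      (ofReal_integral_norm_eq_lintegral_enorm (hF n)).symm
    simp_rw [h3]
    rw [← ENNReal.ofReal_tsum_of_nonneg (fun n => integral_nonneg fun x => norm_nonneg _) hsum]
    exact ENNReal.ofReal_lt_top
  · have h4 : HasSum (fun n : ℕ => (1 - Real.exp (-β)) ^ n * β ^ (-ex n))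
        (∫ x, Real.exp (-β * x) * W x) := by
      have e : (fun n : ℕ => (1 - Real.exp (-β)) ^ n * β ^ (-ex n)) =
          fun n => ∫ x, Real.exp (-β * x) * G n x := by
        funext n; exact ((G_laplace n hb).2).symm
      rw [e]; exact h1
    set r : ℝ := (1 - Real.exp (-β)) * β ^ (-al) with hr
    have hpow : 2 < β ^ al := by
      calc (2:ℝ) < β := hβ
        _ = β ^ (1:ℝ) := (Real.rpow_one β).symm
        _ ≤ β ^ al := Real.rpow_le_rpow_of_exponent_le (by linarith) (by unfold al; norm_num)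
    have he0 : 0 < Real.exp (-β) := Real.exp_pos _
    have he1 : Real.exp (-β) < 1 := Real.exp_lt_one_iff.2 (by linarith)
    have hinv : β ^ (-al) = (β ^ al)⁻¹ := Real.rpow_neg hb.le _
    have hr0 : 0 ≤ r := by rw [hr]; exact mul_nonneg (by linarith) (Real.rpow_nonneg hb.le _)
    have hr1 : r < 1 := by
      rw [hr, hinv, ← div_eq_mul_inv, div_lt_one (by linarith)]; linarith
    have h5 : HasSum (fun n : ℕ => (1 - Real.exp (-β)) ^ n * β ^ (-ex n)) (β ^ (-al) * (1 - r)⁻¹) := by
      have e : (fun n : ℕ => (1 - Real.exp (-β)) ^ n * β ^ (-ex n)) = fun n => β ^ (-al) * r ^ n := by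
        funext n
        rw [hr, mul_pow, ← Real.rpow_natCast (β ^ (-al)) n, ← Real.rpow_mul hb.le]
        have : -ex n = -al + (-al * n) := by unfold ex; ring
        rw [this, Real.rpow_add hb]; ring
      rw [e]
      exact (hasSum_geometric_of_lt_one hr0 hr1).mul_left _
    rw [h4.unique h5, hr, hinv]
    have h6 : β ^ al ≠ 0 := by linarith
    have h7 : β ^ al - (1 - Real.exp (-β)) ≠ 0 := by
      have : 0 < β ^ al - (1 - Real.exp (-β)) := by linarith
      exact this.ne'
    have h8 : 1 - (1 - Real.exp (-β)) * (β ^ al)⁻¹ = (β ^ al - (1 - Real.exp (-β))) / β ^ al := by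
      field_simp
    rw [h8, inv_div, one_div]
    field_simp

lemma W_setLaplace {β : ℝ} (hβ : 2 < β) :
    IntegrableOn (fun x => Real.exp (-β * x) * W x) (Ioi 0) ∧
    ∫ x in Ioi (0:ℝ), Real.exp (-β * x) * W x = 1 / (β ^ al - (1 - Real.exp (-β))) := by
  obtain ⟨h1, h2⟩ := W_laplace hβ
  refine ⟨h1.integrableOn, ?_⟩
  rw [← h2]
  refine setIntegral_eq_integral_of_forall_compl_eq_zero fun x hx => ?_
  rw [W_zero (not_lt.1 hx), mul_zero]

/-! ### regularity -/

/-- the smooth remainder -/
noncomputable def H (x : ℝ) : ℝ := ∑' n, G (n + 1) x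

noncomputable def H1 (x : ℝ) : ℝ := ∑' n, D^[n + 1] (g (ex (n + 1) - 1)) x

noncomputable def H2 (x : ℝ) : ℝ := ∑' n, D^[n + 1] (g (ex (n + 1) - 2)) x

lemma W_eq (x : ℝ) : W x = g al x + H x := by
  unfold W H
  rw [(G_summable x).tsum_eq_zero_add]
  congr 1
  simp [G, ex]

lemma summ' (j : ℝ) : Summable fun n : ℕ => 2 ^ (n + 1) * (3:ℝ) ^ (-(ex (n + 1) - j)) :=
  (summable_nat_add_iff 1).2 (summ j (β := 3) (by norm_num))

lemma deriv_sum (j : ℝ) (hj : j ≤ 1) (x : ℝ) :
    HasDerivAt (fun x => ∑' n, D^[n + 1] (g (ex (n + 1) - j)) x)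
      (∑' n, D^[n + 1] (g (ex (n + 1) - j - 1)) x) x := by
  have hR : x ∈ Iio (x + 1) := by simp
  have hu : Summable fun n : ℕ => Real.exp (3 * (x + 1 + 1)) * (2 ^ (n + 1) * (3:ℝ) ^ (-(ex (n + 1) - (j + 1)))) :=
    (summ' (j + 1)).mul_left _
  refine hasDerivAt_tsum_of_isPreconnected (t := Iio (x + 1))
    (g := fun n x => D^[n + 1] (g (ex (n + 1) - j)) x)
    (g' := fun n x => D^[n + 1] (g (ex (n + 1) - j - 1)) x) hu isOpen_Iio isPreconnected_Iio
    (fun n y _ => ?_) (fun n y hy => ?_) hR ?_ hR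
  · refine D_deriv (fun z => g_deriv ?_ z) (n + 1) y
    have := ex_one n; linarith
  · have h := DG_bound (n + 1) (j + 1) (by have := ex_one n; linarith) (β := 3) (by norm_num)
      (le_of_lt hy)
    have e : ex (n + 1) - j - 1 = ex (n + 1) - (j + 1) := by ring
    rw [Real.norm_eq_abs, e]
    exact h
  · refine Summable.of_norm_bounded ((summ' j).mul_left (Real.exp (3 * (x + 1)))) fun n => ?_
    exact DG_bound (n + 1) j (by have := ex_one n; linarith) (β := 3) (by norm_num) (le_refl x)

lemma H_deriv (x : ℝ) : HasDerivAt H (H1 x) x := by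
  have := deriv_sum 0 (by norm_num) x
  simp only [sub_zero] at this
  exact this

lemma H1_deriv (x : ℝ) : HasDerivAt H1 (H2 x) x := by
  have := deriv_sum 1 (by norm_num) x
  have e : ∀ n : ℕ, ex (n + 1) - 1 - 1 = ex (n + 1) - 2 := fun n => by ring
  simp only [e] at this
  exact this

lemma H2_cont : Continuous H2 := by
  rw [continuous_iff_continuousAt]
  intro x
  have h : ContinuousOn H2 (Iio (x + 1)) := by
    refine continuousOn_tsum (fun n => ?_) ((summ' 2).mul_left (Real.exp (3 * (x + 1 + 1))))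
      fun n y hy => ?_
    · exact (D_cont (g_cont (by have := ex_one n; linarith)) (n + 1)).continuousOn
    · exact DG_bound (n + 1) 2 (by have := ex_one n; linarith) (β := 3) (by norm_num) (le_of_lt hy)
  exact h.continuousAt (Iio_mem_nhds (by linarith))

lemma H_contDiff : ContDiff ℝ 2 H := by
  have d1 : deriv H = H1 := funext fun x => (H_deriv x).deriv
  have d2 : deriv H1 = H2 := funext fun x => (H1_deriv x).deriv
  have c1 : ContDiff ℝ 1 H1 := by
    rw [contDiff_one_iff_deriv, d2]
    exact ⟨fun x => (H1_deriv x).differentiableAt, H2_cont⟩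
  rw [show (2 : WithTop ℕ∞) = 1 + 1 from rfl, contDiff_succ_iff_deriv, d1]
  exact ⟨fun x => (H_deriv x).differentiableAt, by intro h; exact absurd h (by decide), c1⟩

lemma W_contDiffOn : ContDiffOn ℝ 2 W (Ioi 0) := by
  have e : ∀ x ∈ Ioi (0:ℝ), W x = x ^ (al - 1) / Real.Gamma al + H x := by
    intro x hx
    rw [W_eq, g_pos_eq (le_of_lt hx)]
  refine ContDiffOn.congr ?_ e
  refine ContDiffOn.add (ContDiffOn.div_const ?_ _) H_contDiff.contDiffOn
  intro x hx
  exact (contDiffAt_id.rpow_const_of_ne (ne_of_gt hx)).contDiffWithinAt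

end Pool.Agent.V11331.SF
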